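import Pool.Agent.H707.NB.FinQ

/-!
# The mean deviation of the sum of `r` consecutive gaps of the zeta zeros (under RH)

If a window of length `x` contains `M` zeros, then exactly `(r - M)₊` of the intervals between a zero
and its `r`-th successor cover it, and exactly `(M - r)₊` of them lie inside it.  Hence the mean of
`|S n r - x|` over the zeros is the mean of `|M - r|` over the windows.  We use
`2 a |M - r| ≤ (M - r)² + a²` and, for `x = m + 1/2`, the bound `J_m + 1/4 + (x - r)²` for the mean of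
`(M - r)²`, which follows from Montgomery's theorem and the majorant of
`Pool.Agent.H707.SM.tent_le`.  Since `|s - r| ≤ (|s - (r - 1/2)| + |s - (r + 1/2)|) / 2`, the mean
deviation of `S n r` from `r` has at most the order `√(log r)`, which is that of the GUE.
-/

open Filter

namespace Pool.Agent.Results.MP_67227b_nt.MeanDeviationOfSums

/-- multiplicity of `s` as a zero of the Riemann zeta function (order of vanishing at `s`) -/
noncomputable def zmult (s : ℂ) : ℕ := analyticOrderNatAt riemannZeta s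

/-- the number of nontrivial zeros of `ζ` with ordinate in `(0, t]`, with multiplicity -/
noncomputable def NZ (t : ℝ) : ℕ :=
  ∑ᶠ s ∈ {s : ℂ | riemannZeta s = 0 ∧ 0 < s.re ∧ s.re < 1 ∧ 0 < s.im ∧ s.im ≤ t}, zmult s

/-- for `n ≥ 1`: the `n`-th positive ordinate `γ n` of a nontrivial zero of `ζ`, the ordinates being
listed in nondecreasing order and repeated according to multiplicity -/
noncomputable def γ (n : ℕ) : ℝ := sInf {t : ℝ | n ≤ NZ t}

/-- the `r`-th neighbour spacing `S n r = (γ_{n+r} log γ_{n+r} - γ_n log γ_n) / 2π`, i.e. the sum of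
`r` consecutive normalised gaps -/
noncomputable def S (n r : ℕ) : ℝ :=
  (γ (n + r) * Real.log (γ (n + r)) - γ n * Real.log (γ n)) / (2 * Real.pi)

/-- `J_m = (m + 1/2) / 3 - ((2m+1) / π²) ∑_{k ≤ m} 1/k² + (1 / π²) ∑_{k ≤ m} 1/k` -/
noncomputable def J (m : ℕ) : ℝ :=
  ((m : ℝ) + 1 / 2) / 3 - (2 * m + 1) / Real.pi ^ 2 * ∑ k ∈ Finset.range m, 1 / ((k : ℝ) + 1) ^ 2 +
    1 / Real.pi ^ 2 * ∑ k ∈ Finset.range m, 1 / ((k : ℝ) + 1)

/-- On the Riemann hypothesis: (1) for all `m ≥ 0`, `r ≥ 1`, `ε > 0` and all large `N` the mean of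
`|S n r - (m + 1/2)|` over `n ≤ N` is at most `√(J_m + 1/4 + (m + 1/2 - r)²) + ε`.
(2) For every `r ≥ 1` (written `r + 1`), every `ε > 0` and all large `N` the mean of `|S n r - r|`
over `n ≤ N` is at most `(√(J_{r-1} + 1/2) + √(J_r + 1/2)) / 2 + ε`.
(3) `J_m ≤ (2 + ∑_{k ≤ m} 1/k) / π²`. -/
theorem result (RH : RiemannHypothesis) :
    (∀ m r : ℕ, 1 ≤ r → ∀ ε : ℝ, 0 < ε → ∀ᶠ N : ℕ in atTop,
      (1 / N : ℝ) * ∑ n ∈ Finset.Icc 1 N, |S n r - ((m : ℝ) + 1 / 2)| ≤
        Real.sqrt (J m + 1 / 4 + ((m : ℝ) + 1 / 2 - r) ^ 2) + ε) ∧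
    (∀ r : ℕ, ∀ ε : ℝ, 0 < ε → ∀ᶠ N : ℕ in atTop,
      (1 / N : ℝ) * ∑ n ∈ Finset.Icc 1 N, |S n (r + 1) - ((r : ℝ) + 1)| ≤
        (Real.sqrt (J r + 1 / 2) + Real.sqrt (J (r + 1) + 1 / 2)) / 2 + ε) ∧
    (∀ m : ℕ, J m ≤ (2 + ∑ k ∈ Finset.range m, 1 / ((k : ℝ) + 1)) / Real.pi ^ 2) := by
  have hS : ∀ n r, Pool.Agent.H707.NB.sp n r = S n r := fun n r => rfl
  have hJ : ∀ m, Pool.Agent.H707.SM.Jm m = J m := fun m => rfl
  refine ⟨fun m r hr ε hε => ?_, fun r ε hε => ?_, fun m => Pool.Agent.H707.SM.Jm_le m⟩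
  · filter_upwards [Pool.Agent.H707.NB.absdev RH m hr hε, eventually_gt_atTop 0] with N h1 hN
    have hNpos : (0 : ℝ) < N := by exact_mod_cast hN
    simp only [hS, hJ] at h1
    rw [one_div, inv_mul_eq_div]
    exact (div_le_iff₀ hNpos).2 h1
  · filter_upwards [Pool.Agent.H707.NB.absdev_r RH r hε, eventually_gt_atTop 0] with N h1 hN
    have hNpos : (0 : ℝ) < N := by exact_mod_cast hN
    simp only [hS, hJ] at h1
    rw [one_div, inv_mul_eq_div]
    exact (div_le_iff₀ hNpos).2 h1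

end Pool.Agent.Results.MP_67227b_nt.MeanDeviationOfSums
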