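import Pool.Agent.H707.NB.FinW

/-!
# All neighbour spacings of the zeta zeros at once (under RH)

Let `S n r` be the distance of the `n`-th and the `(n + r)`-th zero in units of the mean spacing.
If a window of length `x` contains `M` zeros, then exactly `(r - M)₊` of the intervals between a zero
and its `r`-th successor cover it, and exactly `(M - r)₊` of them lie inside it.  Hence every
inequality `∑ (u_r (r - M)₊ + v_r (M - r)₊) ≤ (M - m) (M - m - 1)` between functions of the integer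
`M` turns into an upper bound for the mean of `∑ (u_r (S n r - x)₊ + v_r (x - S n r)₊)` by the mean
of `(M - m) (M - m - 1)` over the windows.  For `x = m + 1/2` the latter is at most `J_m` by
Montgomery's theorem and the majorant of `Pool.Agent.H707.SM.tent_le`.
-/

open Filter

namespace Pool.Agent.Results.MP_67227b_nt.NeighbourSpacings

/-- multiplicity of `s` as a zero of the Riemann zeta function (order of vanishing at `s`) -/
noncomputable def zmult (s : ℂ) : ℕ := analyticOrderNatAt riemannZeta s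

/-- the number of nontrivial zeros of `ζ` with ordinate in `(0, t]`, with multiplicity -/
noncomputable def NZ (t : ℝ) : ℕ :=
  ∑ᶠ s ∈ {s : ℂ | riemannZeta s = 0 ∧ 0 < s.re ∧ s.re < 1 ∧ 0 < s.im ∧ s.im ≤ t}, zmult s

/-- for `n ≥ 1`: the `n`-th positive ordinate `γ n` of a nontrivial zero of `ζ`, the ordinates being
listed in nondecreasing order and repeated according to multiplicity -/
noncomputable def γ (n : ℕ) : ℝ := sInf {t : ℝ | n ≤ NZ t}

/-- the `r`-th neighbour spacing `S n r = (γ_{n+r} log γ_{n+r} - γ_n log γ_n) / 2π`, i.e. the sum of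
`r` consecutive normalised gaps -/
noncomputable def S (n r : ℕ) : ℝ :=
  (γ (n + r) * Real.log (γ (n + r)) - γ n * Real.log (γ n)) / (2 * Real.pi)

/-- `J_m = (m + 1/2) / 3 - ((2m+1) / π²) ∑_{k ≤ m} 1/k² + (1 / π²) ∑_{k ≤ m} 1/k` -/
noncomputable def J (m : ℕ) : ℝ :=
  ((m : ℝ) + 1 / 2) / 3 - (2 * m + 1) / Real.pi ^ 2 * ∑ k ∈ Finset.range m, 1 / ((k : ℝ) + 1) ^ 2 +
    1 / Real.pi ^ 2 * ∑ k ∈ Finset.range m, 1 / ((k : ℝ) + 1)

/-- On the Riemann hypothesis: (1) let `m, P ≥ 0` be integers and `u_r, v_r ≥ 0` weights with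
`∑_{r ≤ P} (u_r (r - M)₊ + v_r (M - r)₊) ≤ (M - m) (M - m - 1)` for all integers `M ≥ 0`; then for
every `ε > 0` and all large `N` the mean over `n ≤ N` of
`∑_{r ≤ P} (u_r (S n r - (m + 1/2))₊ + v_r (m + 1/2 - S n r)₊)` is at most `J_m + ε`.
(2) For every `r ≥ 1` (written `r + 1`), every `ε > 0` and all large `N` the mean of `|S n r - r|`
over `n ≤ N` is at most `1/2 + (J_{r-1} + J_r) / 2 + ε`.
(3) `J_m ≤ (2 + ∑_{k ≤ m} 1/k) / π²`. -/
theorem result (RH : RiemannHypothesis) :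
    (∀ m P : ℕ, ∀ u v : ℕ → ℝ, (∀ r, 0 ≤ u r) → (∀ r, 0 ≤ v r) →
      (∀ M : ℕ, ∑ r ∈ Finset.Icc 1 P, (u r * max 0 ((r : ℝ) - M) + v r * max 0 ((M : ℝ) - r)) ≤
        ((M : ℝ) - m) * ((M : ℝ) - m - 1)) →
      ∀ ε : ℝ, 0 < ε → ∀ᶠ N : ℕ in atTop,
        (1 / N : ℝ) * ∑ n ∈ Finset.Icc 1 N, ∑ r ∈ Finset.Icc 1 P,
          (u r * max 0 (S n r - ((m : ℝ) + 1 / 2)) + v r * max 0 ((m : ℝ) + 1 / 2 - S n r)) ≤
        J m + ε) ∧
    (∀ r : ℕ, ∀ ε : ℝ, 0 < ε → ∀ᶠ N : ℕ in atTop,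
      (1 / N : ℝ) * ∑ n ∈ Finset.Icc 1 N, |S n (r + 1) - ((r : ℝ) + 1)| ≤
        1 / 2 + (J r + J (r + 1)) / 2 + ε) ∧
    (∀ m : ℕ, J m ≤ (2 + ∑ k ∈ Finset.range m, 1 / ((k : ℝ) + 1)) / Real.pi ^ 2) := by
  have hS : ∀ n r, Pool.Agent.H707.NB.sp n r = S n r := fun n r => rfl
  have hJ : ∀ m, Pool.Agent.H707.SM.Jm m = J m := fun m => rfl
  refine ⟨fun m P u v hu hv hw ε hε => ?_, fun r ε hε => ?_,
    fun m => Pool.Agent.H707.SM.Jm_le m⟩
  · have hw' : ∀ M : ℕ, ∑ r ∈ Finset.Icc 1 P,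
        (u r * ((r - M : ℕ) : ℝ) + v r * ((M - r : ℕ) : ℝ)) ≤
        (M : ℝ) ^ 2 - (2 * m + 1) * M + m * (m + 1) := by
      intro M
      simp only [Pool.Agent.H707.NB.cast_sub_max]
      refine (hw M).trans (le_of_eq ?_)
      ring
    filter_upwards [Pool.Agent.H707.NB.mainW RH m P hu hv hw' hε, eventually_gt_atTop 0]
      with N h1 hN
    have hNpos : (0 : ℝ) < N := by exact_mod_cast hN
    simp only [hS, hJ] at h1
    rw [one_div, inv_mul_eq_div]
    exact (div_le_iff₀ hNpos).2 h1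
  · filter_upwards [Pool.Agent.H707.NB.dev RH r hε, eventually_gt_atTop 0] with N h1 hN
    have hNpos : (0 : ℝ) < N := by exact_mod_cast hN
    simp only [hS, hJ] at h1
    rw [one_div, inv_mul_eq_div]
    exact (div_le_iff₀ hNpos).2 h1

end Pool.Agent.Results.MP_67227b_nt.NeighbourSpacings
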