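import Pool.Agent.H707.NB.Var

/-!
# The variance of the sum of `r` consecutive gaps of the zeta zeros (under RH)

For integers `M` and `d ≥ 0` the inequality `(k - d) (k - d - 1) ≥ 0` with `k = r - M` says that
`(4 d + 2) (r - M)₊ ≤ (M - m) (M - m - 1)` for `m = r + d`, and similarly below `r`; moreover
`(m (m + 1) / r) (r - M)₊ ≤ (M - m) (M - m - 1)` if `m + 1 ≥ 2 r`.  By the weighted inequality
`Pool.Agent.H707.NB.mainW` (the hand-in `NeighbourSpacings`) the mean of `(S - x)₊` resp. `(x - S)₊`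
for one distance `S = S n r` and the half-integer `x = m + 1/2` is at most `J_m / (4 |x - r|)`, resp.
`r J_m / (m (m + 1))`.  The trapezoidal rule with the nodes `m + 1/2` gives the variance.
-/

open Filter

namespace Pool.Agent.Results.MP_67227b_nt.VarianceOfSums

/-- multiplicity of `s` as a zero of the Riemann zeta function (order of vanishing at `s`) -/
noncomputable def zmult (s : ℂ) : ℕ := analyticOrderNatAt riemannZeta s

/-- the number of nontrivial zeros of `ζ` with ordinate in `(0, t]`, with multiplicity -/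
noncomputable def NZ (t : ℝ) : ℕ :=
  ∑ᶠ s ∈ {s : ℂ | riemannZeta s = 0 ∧ 0 < s.re ∧ s.re < 1 ∧ 0 < s.im ∧ s.im ≤ t}, zmult s

/-- for `n ≥ 1`: the `n`-th positive ordinate `γ n` of a nontrivial zero of `ζ`, the ordinates being
listed in nondecreasing order and repeated according to multiplicity -/
noncomputable def γ (n : ℕ) : ℝ := sInf {t : ℝ | n ≤ NZ t}

/-- the `r`-th neighbour spacing `S n r = (γ_{n+r} log γ_{n+r} - γ_n log γ_n) / 2π`, i.e. the sum of
`r` consecutive normalised gaps -/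
noncomputable def S (n r : ℕ) : ℝ :=
  (γ (n + r) * Real.log (γ (n + r)) - γ n * Real.log (γ n)) / (2 * Real.pi)

/-- `H_m = ∑_{1 ≤ k ≤ m} 1/k` -/
noncomputable def H (m : ℕ) : ℝ := ∑ k ∈ Finset.range m, 1 / ((k : ℝ) + 1)

/-- `O_r = 1 + 1/3 + ⋯ + 1/(2r-1)` -/
noncomputable def O (r : ℕ) : ℝ := ∑ i ∈ Finset.range r, 1 / (2 * (i : ℝ) + 1)

/-- On the Riemann hypothesis: for every `r ≥ 1`, every `ε > 0` and all large `N` the mean of
`(S n r - r)²` over `n ≤ N` is at most `1/4 + (2 O_r (2 + H_{2r}) + 3 + H_{2r}) / π² + ε`. -/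
theorem result (RH : RiemannHypothesis) (r : ℕ) (hr : 1 ≤ r) (ε : ℝ) (hε : 0 < ε) :
    ∀ᶠ N : ℕ in atTop, (1 / N : ℝ) * ∑ n ∈ Finset.Icc 1 N, (S n r - r) ^ 2 ≤
      1 / 4 + (2 * O r * (2 + H (2 * r)) + 3 + H (2 * r)) / Real.pi ^ 2 + ε := by
  have hS : ∀ n r, Pool.Agent.H707.NB.sp n r = S n r := fun n r => rfl
  have hH : ∀ m, Pool.Agent.H707.SM.H1 m = H m := fun m => rfl
  have hO : ∀ m, Pool.Agent.H707.NB.Od m = O m := fun m => rfl
  filter_upwards [Pool.Agent.H707.NB.variance RH hr hε, eventually_gt_atTop 0] with N h1 hN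
  have hNpos : (0 : ℝ) < N := by exact_mod_cast hN
  simp only [hS, hH, hO] at h1
  rw [one_div, inv_mul_eq_div]
  exact (div_le_iff₀ hNpos).2 h1

end Pool.Agent.Results.MP_67227b_nt.VarianceOfSums
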